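import Pool.Agent.Helper88.QT.St1
import Pool.Agent.Helper85.QT.St1

/-!
# Project QT, module ZS2 (embedded balls at height `2 cz`)
-/

set_option autoImplicit false

open MeasureTheory Matrix Set Topology
open scoped ENNReal ComplexConjugate

namespace Pool.Agent.Helper44.QT

open Pool.Agent.Helper88.QT Pool.Agent.Helper85.QT Pool.Agent.Helper86.QA

private theorem fd_ge (hFDM : Pool.Agent.Helper88.QT.StFDM) {lam : ℂ} (h0 : 0 < lam.re)
    (h1 : 1 ≤ 2 * Real.pi * lam.re / ‖lam‖ ^ 2) (n : ℤ) (ξ : ℂ) (hn : n ≠ 0) (hξ : ξ ≠ 0) :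
    1 ≤ fd lam ξ (Complex.exp (n * lam) * ξ) := by
  have hl : lam ≠ 0 := by
    intro h
    rw [h, Complex.zero_re] at h0
    exact lt_irrefl _ h0
  obtain ⟨-, -, -, -, f5, -⟩ := hFDM lam hl
  have hx : Complex.exp (lam * (Complex.log ξ / lam)) = ξ := by
    rw [mul_div_cancel₀ _ hl, Complex.exp_log hξ]
  obtain ⟨y, hy1, hy2⟩ := f5 (Complex.log ξ / lam) (Complex.exp (n * lam) * ξ)
    (mul_ne_zero (Complex.exp_ne_zero _) hξ)
  rw [hx] at hy2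
  rw [hy2]
  set x := Complex.log ξ / lam with hxd
  have h2 : Complex.exp (lam * y) = Complex.exp (n * lam + lam * x) := by
    rw [hy1, Complex.exp_add, hx]
  rw [Complex.exp_eq_exp_iff_exists_int] at h2
  obtain ⟨k, hk⟩ := h2
  have h3 : y - x = n + k * (2 * Real.pi * Complex.I / lam) := by
    field_simp
    linear_combination hk
  rw [norm_sub_rev, h3]
  by_cases hk0 : k = 0
  · rw [hk0, Int.cast_zero, zero_mul, add_zero, Complex.norm_intCast]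
    have := Int.one_le_abs hn
    exact_mod_cast this
  · have h4 : (2 * Real.pi * Complex.I / lam).im = 2 * Real.pi * lam.re / ‖lam‖ ^ 2 := by
      rw [Complex.sq_norm, Complex.div_im]
      simp only [Complex.mul_im, Complex.mul_re, Complex.I_re, Complex.I_im, Complex.ofReal_re,
        Complex.ofReal_im, Complex.re_ofNat, Complex.im_ofNat]
      ring
    have h5 : ((n : ℂ) + k * (2 * Real.pi * Complex.I / lam)).im =
        k * (2 * Real.pi * lam.re / ‖lam‖ ^ 2) := by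
      rw [Complex.add_im, Complex.mul_im, h4]
      simp
    have h6 := Complex.abs_im_le_norm ((n : ℂ) + k * (2 * Real.pi * Complex.I / lam))
    rw [h5, abs_mul] at h6
    have h7 : (1 : ℝ) ≤ |(k : ℝ)| := by
      have := Int.one_le_abs hk0
      exact_mod_cast this
    have h8 : 1 ≤ |2 * Real.pi * lam.re / ‖lam‖ ^ 2| := h1.trans (le_abs_self _)
    nlinarith

private theorem e_mul (g h : SL) (i j : Fin 2) :
    (g * h) i j = g i 0 * h 0 j + g i 1 * h 1 j := by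
  rw [Matrix.SpecialLinearGroup.coe_mul, Matrix.mul_apply, Fin.sum_univ_two]

private theorem e_inv (g : SL) : (g⁻¹) 0 0 = g 1 1 ∧ (g⁻¹) 0 1 = - g 0 1 ∧ (g⁻¹) 1 0 = - g 1 0 ∧
    (g⁻¹) 1 1 = g 0 0 := by
  rw [Matrix.SpecialLinearGroup.coe_inv, Matrix.adjugate_fin_two]
  simp

private theorem dpow (D : SL) (lam : ℂ) (h1 : D 0 1 = 0) (h2 : D 1 0 = 0)
    (h3 : D 0 0 = Complex.exp lam * D 1 1) (n : ℕ) :
    (D ^ n) 0 1 = 0 ∧ (D ^ n) 1 0 = 0 ∧ (D ^ n) 0 0 = Complex.exp (n * lam) * (D ^ n) 1 1 := by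
  induction n with
  | zero =>
    refine ⟨by simp, by simp, by simp⟩
  | succ n ih =>
    obtain ⟨i1, i2, i3⟩ := ih
    rw [pow_succ]
    refine ⟨?_, ?_, ?_⟩
    · rw [e_mul, i1, h1]; ring
    · rw [e_mul, i2, h2]; ring
    · rw [e_mul, e_mul, i1, i2, i3, h3]
      push_cast
      rw [add_mul, one_mul, Complex.exp_add]
      ring

private theorem dzpow (D : SL) (lam : ℂ) (h1 : D 0 1 = 0) (h2 : D 1 0 = 0)
    (h3 : D 0 0 = Complex.exp lam * D 1 1) (n : ℤ) :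
    (D ^ n) 0 1 = 0 ∧ (D ^ n) 1 0 = 0 ∧ (D ^ n) 0 0 = Complex.exp (n * lam) * (D ^ n) 1 1 := by
  obtain ⟨m, rfl | rfl⟩ := n.eq_nat_or_neg
  · rw [_root_.zpow_natCast]
    have h := dpow D lam h1 h2 h3 m
    exact_mod_cast h
  · rw [_root_.zpow_neg, _root_.zpow_natCast]
    obtain ⟨i1, i2, i3⟩ := dpow D lam h1 h2 h3 m
    obtain ⟨k1, k2, k3, k4⟩ := e_inv (D ^ m)
    rw [k1, k2, k3, k4, i1, i2, i3]
    refine ⟨neg_zero, neg_zero, ?_⟩
    push_cast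
    rw [← mul_assoc, ← Complex.exp_add]
    rw [show -(m : ℂ) * lam + m * lam = 0 by ring, Complex.exp_zero, one_mul]

theorem hZS2 (hACT : Pool.Agent.Helper86.QA.StACT) (hCHI : Pool.Agent.Helper86.QA.StCHI)
    (hFDM : Pool.Agent.Helper88.QT.StFDM) (hXPT : Pool.Agent.Helper88.QT.StXPT)
    (hCHF : Pool.Agent.Helper88.QT.StCHF) (hTRI : Pool.Agent.Helper88.QT.StTRI)
    (hZS1 : Pool.Agent.Helper88.QT.StZS1) : Pool.Agent.Helper88.QT.StZS2 := by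
  intro Γ _ ρ A B α lam M G m φ C3 hA h1 h2
  have hl : lam ≠ 0 := by
    intro h
    have := hA.re
    rw [h, Complex.zero_re] at this
    exact lt_irrefl _ this
  have hfd := fd_ge hFDM hA.re h1
  refine ⟨hfd, ?_⟩
  intro x hx hT γ hγ z hz hxz
  obtain ⟨a1, a2, a3, -⟩ := hACT
  obtain ⟨c1, c2, -⟩ := hCHI
  obtain ⟨-, x2, x3, x4, x5⟩ := hXPT lam hl
  by_contra hc
  push Not at hc
  have hgz : ga (ρ γ) z ∈ up := (a1 (ρ γ) z hz).2.1
  have hgx : ga (ρ γ) x ∈ up := (a1 (ρ γ) x hx).2.1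
  have hix : ga (ρ γ⁻¹) x ∈ up := (a1 (ρ γ⁻¹) x hx).2.1
  have hc' : ch x (ga (ρ γ) z) ≤ 1 + 1 / 10 ^ 7 := hc
  have e1 : ch (ga (ρ γ) z) (ga (ρ γ) x) ≤ 1 + 1 / 10 ^ 7 := by
    rw [(c2 (ρ γ) z hz x hx).1, (c1 z hz x hx).2.1]
    exact hxz
  have e2 : ch x (ga (ρ γ) x) ≤ 1 + 5 * (1 / 10 ^ 7) :=
    hTRI.2 (1 / 10 ^ 7) (by norm_num) (by norm_num) x hx _ hgz _ hgx hc' e1
  -- the lift
  have e3 : ga (ρ γ) (ga (ρ γ⁻¹) x) = x := by
    rw [← a2 _ _ x hx, ← map_mul, mul_inv_cancel, map_one]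
    exact a3 x hx
  have e4 : ch x (ga (ρ γ⁻¹) x) ≤ 1 + 5 * (1 / 10 ^ 7) := by
    have h := (c2 (ρ γ) x hx _ hix).1
    rw [e3] at h
    rw [← h, (c1 _ hgx x hx).2.1]
    exact e2
  have hT' : TT lam x = 200 := by
    rw [hT]
    unfold cz
    norm_num
  have e5 := (x5 x hx _ hix).2
  rw [hT'] at e5
  have hpos := (x2 _ hix).1
  have e6 : 12 ≤ TT lam (ga (ρ γ⁻¹) x) := by
    by_contra hcc
    push Not at hcc
    have h7 := (c1 x hx _ hix).1
    nlinarith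
  obtain ⟨n, hn⟩ := hZS1 Γ ρ A B α lam M G m φ C3 hA x hx γ (by rw [hT']; norm_num) e6
  have hn0 : n ≠ 0 := by
    rintro rfl
    exact hγ (by rw [hn, zpow_zero])
  -- the power
  obtain ⟨d1, d2, d3⟩ := dzpow (ρ α) lam hA.dg.1 hA.dg.2 hA.mu n
  rw [← map_zpow, ← hn] at d1 d2 d3
  obtain ⟨-, y2, y3, y4, -⟩ := x4 (ρ γ) x hx d1 d2
  have hd : (ρ γ) 1 1 ≠ 0 := by
    intro h
    rw [h, div_zero] at y4
    exact y4 rfl
  have hq : (ρ γ) 0 0 / (ρ γ) 1 1 = Complex.exp (n * lam) := by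
    rw [d3, mul_div_assoc, div_self hd, mul_one]
  rw [hq] at y3
  have hTl : TT lam x * ‖lam‖ < 1 := by
    rw [hT']
    linarith
  have hx1 : x.1 ≠ 0 := (x2 x hx).2.2.2.2 hTl
  have hrd : rd x ≠ 0 := (x3 x hx hx1).1
  have hf := hfd n (rd x) hn0 hrd
  rw [← y3] at hf
  have e7 := ((hCHF lam hl).2 200 (by norm_num) (by linarith) x hx _ hgx hT' (y2.trans hT')).1
  have e8 : (1 : ℝ) ≤ fd lam (rd x) (rd (ga (ρ γ) x)) ^ 2 := by nlinarith
  have e9 : (1 : ℝ) / (8 * 200 ^ 2) ≤ fd lam (rd x) (rd (ga (ρ γ) x)) ^ 2 / (8 * 200 ^ 2) :=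
    div_le_div_of_nonneg_right e8 (by norm_num)
  have e10 : (5 : ℝ) * (1 / 10 ^ 7) < 1 / (8 * 200 ^ 2) := by norm_num
  linarith

end Pool.Agent.Helper44.QT
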